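import Pool.Agent.K4H24.Fano.Roots

/-!
# The Chern roots are positive integers
-/

set_option autoImplicit false

namespace Pool.Agent.K4H24.Fano

open Finset Filter Topology

section

variable {r : ℕ} (a : Fin r → ℂ)

/-- `(1 - exp (z s)) / s → - z` -/
lemma lim_div (z : ℂ) : Tendsto (fun s : ℂ => (1 - Complex.exp (z * s)) / s) (𝓝[≠] 0) (𝓝 (-z)) := by
  have h1 : HasDerivAt (fun s : ℂ => 1 - Complex.exp (z * s)) (-z) 0 := by
    have h2 : HasDerivAt (fun s : ℂ => z * s) z 0 := by
      simpa using (hasDerivAt_id (0 : ℂ)).const_mul z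
    have h3 := h2.cexp.const_sub 1
    simpa using h3
  have h4 := hasDerivAt_iff_tendsto_slope.1 h1
  refine h4.congr' ?_
  filter_upwards [self_mem_nhdsWithin] with s hs
  rw [slope_def_field]
  simp

/-- If `∏ (1 - exp (a_k s))` is periodic with period `2 π i` then all `a_k` are integers. -/
theorem integral_of_periodic (ha : ∀ k, a k ≠ 0)
    (hper : ∀ s : ℂ, ∏ k, (1 - Complex.exp (a k * (s + 2 * Real.pi * Complex.I))) =
      ∏ k, (1 - Complex.exp (a k * s))) : ∀ k, ∃ m : ℤ, a k = m := by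
  classical
  by_contra hcon
  push Not at hcon
  obtain ⟨k₀, hk₀⟩ := hcon
  let A : Finset (Fin r) := univ.filter (fun k => ∃ m : ℤ, a k = m)
  have hA : A.card < r := by
    have h1 : A ⊂ univ := by
      rw [Finset.ssubset_univ_iff]
      intro h
      have : k₀ ∈ A := by rw [h]; exact Finset.mem_univ _
      obtain ⟨m, hm⟩ := (Finset.mem_filter.1 this).2
      exact hk₀ m hm
    have := Finset.card_lt_card h1
    rwa [Finset.card_univ, Fintype.card_fin] at this
  -- first limit
  have h1 : Tendsto (fun s : ℂ => (∏ k, (1 - Complex.exp (a k * s))) / s ^ A.card) (𝓝[≠] 0)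
      (𝓝 0) := by
    have h2 : Tendsto (fun s : ℂ => (∏ k, ((1 - Complex.exp (a k * s)) / s)) * s ^ (r - A.card))
        (𝓝[≠] 0) (𝓝 ((∏ k, (-a k)) * 0 ^ (r - A.card))) := by
      refine Tendsto.mul (tendsto_finsetProd _ (fun k _ => lim_div (a k))) ?_
      exact (((continuous_pow (r - A.card)).tendsto 0).mono_left nhdsWithin_le_nhds)
    rw [zero_pow (by omega), mul_zero] at h2
    refine h2.congr' ?_
    filter_upwards [self_mem_nhdsWithin] with s hs
    have hs' : s ≠ 0 := hs
    rw [Finset.prod_div_distrib, Finset.prod_const, Finset.card_univ, Fintype.card_fin,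
      div_mul_eq_mul_div, div_eq_div_iff (pow_ne_zero _ hs') (pow_ne_zero _ hs'), mul_assoc,
      ← pow_add]
    congr 2
    omega
  -- second limit
  have h2 : Tendsto (fun s : ℂ => (∏ k, (1 - Complex.exp (a k * (s + 2 * Real.pi * Complex.I)))) /
      s ^ A.card) (𝓝[≠] 0)
      (𝓝 ((∏ k ∈ A, (-a k)) * ∏ k ∈ Aᶜ, (1 - Complex.exp (a k * (2 * Real.pi * Complex.I))))) := by
    have h3 : Tendsto (fun s : ℂ => (∏ k ∈ A, ((1 - Complex.exp (a k * s)) / s)) *
        ∏ k ∈ Aᶜ, (1 - Complex.exp (a k * (s + 2 * Real.pi * Complex.I)))) (𝓝[≠] 0)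
        (𝓝 ((∏ k ∈ A, (-a k)) *
          ∏ k ∈ Aᶜ, (1 - Complex.exp (a k * (2 * Real.pi * Complex.I))))) := by
      refine Tendsto.mul (tendsto_finsetProd _ (fun k _ => lim_div (a k))) ?_
      refine tendsto_finsetProd _ (fun k _ => ?_)
      have h4 : Continuous (fun s : ℂ => 1 - Complex.exp (a k * (s + 2 * Real.pi * Complex.I))) := by
        fun_prop
      have h5 := (h4.tendsto 0).mono_left (nhdsWithin_le_nhds (s := {0}ᶜ))
      simpa using h5
    refine h3.congr' ?_
    filter_upwards [self_mem_nhdsWithin] with s hs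
    have hs' : s ≠ 0 := hs
    rw [← Finset.prod_mul_prod_compl A (fun k => 1 - Complex.exp (a k *
      (s + 2 * Real.pi * Complex.I))), Finset.prod_div_distrib, Finset.prod_const,
      div_mul_eq_mul_div]
    congr 2
    refine Finset.prod_congr rfl (fun k hk => ?_)
    obtain ⟨m, hm⟩ := (Finset.mem_filter.1 hk).2
    rw [hm]
    have h6 : (m : ℂ) * (s + 2 * Real.pi * Complex.I) = m * s + m * (2 * Real.pi * Complex.I) := by
      ring
    rw [h6, Complex.exp_add, Complex.exp_int_mul_two_pi_mul_I, mul_one]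
  have h3 : (fun s : ℂ => (∏ k, (1 - Complex.exp (a k * (s + 2 * Real.pi * Complex.I)))) /
      s ^ A.card) = (fun s : ℂ => (∏ k, (1 - Complex.exp (a k * s))) / s ^ A.card) := by
    funext s
    rw [hper]
  rw [h3] at h2
  have h4 := tendsto_nhds_unique h1 h2
  have h5 : (∏ k ∈ A, (-a k)) * ∏ k ∈ Aᶜ, (1 - Complex.exp (a k * (2 * Real.pi * Complex.I))) ≠ 0 := by
    refine mul_ne_zero (Finset.prod_ne_zero_iff.2 (fun k _ => neg_ne_zero.2 (ha k))) ?_
    refine Finset.prod_ne_zero_iff.2 (fun k hk h => ?_)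
    have h6 : Complex.exp (a k * (2 * Real.pi * Complex.I)) = 1 := by
      linear_combination -h
    rw [Complex.exp_eq_one_iff] at h6
    obtain ⟨m, hm⟩ := h6
    have h7 : a k = m := by
      have h8 : (2 * Real.pi * Complex.I : ℂ) ≠ 0 := Complex.two_pi_I_ne_zero
      exact mul_right_cancel₀ h8 hm
    exact (Finset.mem_compl.1 hk) (Finset.mem_filter.2 ⟨Finset.mem_univ _, m, h7⟩)
  exact h5 h4.symm

variable {N e c : ℕ} {k : ℤ}

/-- **The Chern roots are positive integers.** -/
theorem roots_integral (ha : ∀ j, a j ≠ 0) (hsum : ∑ j, a j = c) (hk : (c : ℤ) = N + 1 + k)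
    (he : 0 < e) (hec : 2 * e ≤ c + 1) (h2 : (2 : ℤ) ^ r ≤ 2 * e + 1 - k)
    (hval : ∀ t : ℤ, k - e < t → t < e → hilbPoly N a t =
      (if 0 ≤ t then (((N + t).toNat.choose N : ℕ) : ℂ) else 0) +
      (-1) ^ (N + r) * (if 0 ≤ k - t then (((N + (k - t)).toNat.choose N : ℕ) : ℂ) else 0)) :
    ∀ j, ∃ d : ℕ, 0 < d ∧ a j = d := by
  classical
  rcases Nat.eq_zero_or_pos r with hr | hr
  · subst hr
    intro k
    exact k.elim0
  have halt0 := alt_zero a hr hsum hk he hec h2 hval
  have halt : ∀ f : ℂ → ℂ, (∀ m : ℕ, 0 < m → f m = 0) →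
      ∑ S ∈ mid r, (-1) ^ S.card * f (∑ j ∈ S, a j) = 0 :=
    fun f hf => halt0 f (fun m hm => hf m (by omega))
  -- periodicity
  have hper : ∀ s : ℂ, ∏ k, (1 - Complex.exp (a k * (s + 2 * Real.pi * Complex.I))) =
      ∏ k, (1 - Complex.exp (a k * s)) := by
    intro s
    rw [← sub_eq_zero, prod_eq_sum, prod_eq_sum, ← Finset.sum_sub_distrib]
    simp_rw [← mul_sub]
    rw [sum_split hr]
    have h3 : ∀ m : ℕ, Complex.exp (m * (s + 2 * Real.pi * Complex.I)) = Complex.exp (m * s) := by
      intro m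
      have h6 : (m : ℂ) * (s + 2 * Real.pi * Complex.I) = m * s + m * (2 * Real.pi * Complex.I) := by
        ring
      rw [h6, Complex.exp_add, Complex.exp_nat_mul_two_pi_mul_I, mul_one]
    rw [halt (fun z => Complex.exp (z * (s + 2 * Real.pi * Complex.I)) - Complex.exp (z * s))
      (fun m _ => by show _ - _ = (0 : ℂ); rw [h3, sub_self]), hsum, h3]
    simp
  have hint := integral_of_periodic a ha hper
  choose z hz using hint
  have hc : 0 < c := by omega
  -- the limit of the product at minus infinity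
  have h1 : Tendsto (fun s : ℝ => ∏ k, (1 - Complex.exp (a k * s))) atBot (𝓝 1) := by
    have hexp : ∀ m : ℕ, 0 < m → Tendsto (fun s : ℝ => Complex.exp ((m : ℂ) * s)) atBot (𝓝 0) := by
      intro m hm
      have h3 : Tendsto (fun s : ℝ => Real.exp (m * s)) atBot (𝓝 0) :=
        Real.tendsto_exp_atBot.comp (tendsto_id.const_mul_atBot (by exact_mod_cast hm))
      have h4 := (Complex.continuous_ofReal.tendsto 0).comp h3
      refine (h4.congr (fun s => ?_)).trans (by simp)
      simp
    have h3 : ∀ s : ℝ, ∏ k, (1 - Complex.exp (a k * s)) = 1 + ((-1) ^ r * Complex.exp (c * s) +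
        ∑ S ∈ mid r, (-1) ^ S.card * (if ∃ m : ℕ, 0 < m ∧ ∑ k ∈ S, a k = m then
          Complex.exp ((∑ k ∈ S, a k) * s) else 0)) := by
      intro s
      rw [prod_eq_sum, sum_split hr, hsum]
      have h4 := halt (fun z => if ∃ m : ℕ, 0 < m ∧ z = m then 0 else Complex.exp (z * s))
        (fun m hm => if_pos ⟨m, hm, rfl⟩)
      have h5 : ∑ S ∈ mid r, (-1) ^ S.card * Complex.exp ((∑ k ∈ S, a k) * s) =
          ∑ S ∈ mid r, (-1) ^ S.card * (if ∃ m : ℕ, 0 < m ∧ ∑ k ∈ S, a k = m then
            Complex.exp ((∑ k ∈ S, a k) * s) else 0) := by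
        rw [← sub_eq_zero, ← Finset.sum_sub_distrib]
        refine Eq.trans (Finset.sum_congr rfl (fun S _ => ?_)) h4
        rw [← mul_sub]
        congr 1
        split_ifs <;> simp
      rw [h5]
      simp
    have h4 : Tendsto (fun s : ℝ => (1 : ℂ) + ((-1) ^ r * Complex.exp (c * s) +
        ∑ S ∈ mid r, (-1) ^ S.card * (if ∃ m : ℕ, 0 < m ∧ ∑ k ∈ S, a k = m then
          Complex.exp ((∑ k ∈ S, a k) * s) else 0))) atBot
        (𝓝 (1 + ((-1) ^ r * 0 + ∑ S ∈ mid r, (-1) ^ S.card * 0))) := by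
      refine tendsto_const_nhds.add (((hexp c hc).const_mul _).add ?_)
      refine tendsto_finsetSum _ (fun S _ => Tendsto.const_mul _ ?_)
      by_cases h : ∃ m : ℕ, 0 < m ∧ ∑ k ∈ S, a k = m
      · simp_rw [if_pos h]
        obtain ⟨m, hm, hm'⟩ := h
        rw [hm']
        exact hexp m hm
      · simp_rw [if_neg h]
        exact tendsto_const_nhds
    simp only [mul_zero, Finset.sum_const_zero, add_zero] at h4
    exact h4.congr (fun s => (h3 s).symm)
  -- positivity
  have hpos : ∀ k, 0 < z k := by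
    by_contra hcon
    push Not at hcon
    obtain ⟨k₀, hk₀⟩ := hcon
    have hz0 : ∀ k, z k ≠ 0 := fun k h => ha k (by rw [hz, h]; simp)
    have hk₀' : z k₀ < 0 := lt_of_le_of_ne hk₀ (hz0 k₀)
    let u : Fin r → ℤ := fun k => min (z k) 0
    have hexp : ∀ m : ℤ, 0 < m → Tendsto (fun s : ℝ => Complex.exp ((m : ℂ) * s)) atBot (𝓝 0) := by
      intro m hm
      have h3 : Tendsto (fun s : ℝ => Real.exp (m * s)) atBot (𝓝 0) :=
        Real.tendsto_exp_atBot.comp (tendsto_id.const_mul_atBot (by exact_mod_cast hm))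
      have h4 := (Complex.continuous_ofReal.tendsto 0).comp h3
      refine (h4.congr (fun s => ?_)).trans (by simp)
      simp
    have h3 : ∀ k, Tendsto (fun s : ℝ => (1 - Complex.exp (a k * s)) * Complex.exp (-(u k) * s))
        atBot (𝓝 (if 0 < z k then 1 else -1)) := by
      intro k
      rcases lt_or_gt_of_ne (hz0 k) with h | h
      · rw [if_neg (not_lt.2 h.le)]
        have h4 : u k = z k := min_eq_left h.le
        have h5 : ∀ s : ℝ, (1 - Complex.exp (a k * s)) * Complex.exp (-(u k) * s) =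
            Complex.exp (((-z k : ℤ) : ℂ) * s) - 1 := by
          intro s
          rw [h4, hz, sub_mul, one_mul, ← Complex.exp_add]
          push_cast
          congr 1
          rw [show (z k : ℂ) * s + -(z k) * s = 0 by ring, Complex.exp_zero]
        simp_rw [h5]
        have h6 := (hexp (-z k) (by omega)).sub_const 1
        simpa using h6
      · rw [if_pos h]
        have h4 : u k = 0 := min_eq_right h.le
        have h5 : ∀ s : ℝ, (1 - Complex.exp (a k * s)) * Complex.exp (-(u k) * s) =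
            1 - Complex.exp ((z k : ℂ) * s) := by
          intro s
          rw [h4, hz]
          simp
        simp_rw [h5]
        have h6 := (hexp (z k) h).const_sub 1
        simpa using h6
    have h4 := tendsto_finsetProd (univ : Finset (Fin r)) (fun k _ => h3 k)
    have h5 : Tendsto (fun s : ℝ => (∏ k, (1 - Complex.exp (a k * s))) *
        Complex.exp (((-∑ k, u k : ℤ) : ℂ) * s)) atBot (𝓝 (1 * 0)) := by
      refine h1.mul (hexp _ ?_)
      have h6 : ∑ k, u k < 0 := by
        have h7 : ∑ k, u k ≤ u k₀ := by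
          rw [← Finset.add_sum_erase univ u (Finset.mem_univ k₀)]
          have : ∑ k ∈ univ.erase k₀, u k ≤ 0 :=
            Finset.sum_nonpos (fun k _ => min_le_right _ _)
          omega
        have h8 : u k₀ = z k₀ := min_eq_left hk₀'.le
        omega
      omega
    have h6 : (fun s : ℝ => ∏ k, ((1 - Complex.exp (a k * s)) * Complex.exp (-(u k) * s))) =
        (fun s : ℝ => (∏ k, (1 - Complex.exp (a k * s))) *
          Complex.exp (((-∑ k, u k : ℤ) : ℂ) * s)) := by
      funext s
      rw [Finset.prod_mul_distrib, ← Complex.exp_sum]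
      congr 2
      push_cast
      rw [← Finset.sum_mul, Finset.sum_neg_distrib]
    rw [h6] at h4
    have h7 := tendsto_nhds_unique h4 h5
    rw [mul_zero, Finset.prod_eq_zero_iff] at h7
    obtain ⟨k, _, hk⟩ := h7
    split_ifs at hk <;> norm_num at hk
  intro k
  refine ⟨(z k).toNat, ?_, ?_⟩
  · have := hpos k; omega
  · rw [hz k]
    have h3 : ((z k).toNat : ℤ) = z k := Int.toNat_of_nonneg (hpos k).le
    exact_mod_cast h3.symm

/-- If there are at least two Chern roots then all are at least `e`. -/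
theorem roots_ge (d : Fin r → ℕ) (hd : ∀ j, 0 < d j) (had : ∀ j, a j = d j) (hr : 2 ≤ r)
    (hsum : ∑ j, a j = c) (hk : (c : ℤ) = N + 1 + k)
    (he : 0 < e) (hec : 2 * e ≤ c + 1) (h2 : (2 : ℤ) ^ r ≤ 2 * e + 1 - k)
    (hval : ∀ t : ℤ, k - e < t → t < e → hilbPoly N a t =
      (if 0 ≤ t then (((N + t).toNat.choose N : ℕ) : ℂ) else 0) +
      (-1) ^ (N + r) * (if 0 ≤ k - t then (((N + (k - t)).toNat.choose N : ℕ) : ℂ) else 0)) :
    ∀ j, e ≤ d j := by
  classical
  have halt0 := alt_zero a (by omega) hsum hk he hec h2 hval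
  have : Nonempty (Fin r) := ⟨⟨0, by omega⟩⟩
  obtain ⟨j₀, -, hj₀⟩ := Finset.exists_min_image (univ : Finset (Fin r)) d Finset.univ_nonempty
  by_contra hcon
  push Not at hcon
  obtain ⟨j₁, hj₁⟩ := hcon
  have hlt : d j₀ < e := lt_of_le_of_lt (hj₀ j₁ (Finset.mem_univ _)) hj₁
  have h1 := halt0 (fun z => if z = d j₀ then 1 else 0) (fun m hm => by
    show (if (m : ℂ) = d j₀ then (1 : ℂ) else 0) = 0
    rw [if_neg]
    intro h
    have : m = d j₀ := by exact_mod_cast h
    omega)
  have h3 : ∀ S ∈ mid r, (-1 : ℂ) ^ S.card * (if ∑ j ∈ S, a j = d j₀ then 1 else 0) =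
      if ∑ j ∈ S, d j = d j₀ then -1 else 0 := by
    intro S hS
    have h4 : (∑ j ∈ S, a j = d j₀) ↔ ∑ j ∈ S, d j = d j₀ := by
      rw [Finset.sum_congr rfl (fun j _ => had j)]
      exact_mod_cast Iff.rfl
    by_cases h5 : ∑ j ∈ S, d j = d j₀
    · rw [if_pos h5, if_pos (h4.2 h5)]
      have h6 : S.card = 1 := by
        obtain ⟨j, hj⟩ := Finset.nonempty_iff_ne_empty.2 (mem_mid.1 hS).2
        rw [← Finset.add_sum_erase S d hj] at h5
        rcases Finset.eq_empty_or_nonempty (S.erase j) with h | ⟨l, hl⟩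
        · rw [← Finset.insert_erase hj, h]
          rfl
        · exfalso
          have h7 : d l ≤ ∑ j ∈ S.erase j, d j := Finset.single_le_sum (fun _ _ => Nat.zero_le _) hl
          have := hd l
          have := hj₀ j (Finset.mem_univ _)
          omega
      rw [h6]
      norm_num
    · rw [if_neg h5, if_neg (fun h => h5 (h4.1 h)), mul_zero]
  rw [Finset.sum_congr rfl h3, ← Finset.sum_filter, Finset.sum_const, smul_neg, neg_eq_zero,
    nsmul_one, Nat.cast_eq_zero, Finset.card_eq_zero] at h1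
  have h4 : ({j₀} : Finset (Fin r)) ∈ (mid r).filter (fun S => ∑ j ∈ S, d j = d j₀) := by
    rw [Finset.mem_filter, mem_mid]
    refine ⟨⟨?_, Finset.singleton_ne_empty _⟩, Finset.sum_singleton _ _⟩
    intro h
    have h5 := congrArg Finset.card h
    rw [Finset.card_singleton, Finset.card_univ, Fintype.card_fin] at h5
    omega
  rw [h1] at h4
  exact absurd h4 (Finset.notMem_empty _)

end

end Pool.Agent.K4H24.Fano
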