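import Pool.Agent.K4H24.Fano.Integral
import Pool.Agent.H929R2.Hart.W17

/-!
# The numerical complete intersection and the linear forms
-/

set_option autoImplicit false

namespace Pool.Agent.K4H24.Fano

open Finset MvPolynomial Pool.Agent.H929R2.Hart

/-- The Hilbert function of a complete intersection of type `(d_1, …, d_r)` in `ℙ^N`, `r ≤ N`
(Koszul complex). -/
def ciHilb (N : ℕ) {r : ℕ} (d : Fin r → ℕ) (t : ℕ) : ℤ :=
  ∑ S : Finset (Fin r), (-1) ^ S.card * ((N + t - ∑ k ∈ S, d k).choose N : ℤ)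

/-- The Hilbert function of the homogeneous ideal `I`: the dimension of the space of the
restrictions to the cone over `X` of the forms of degree `t`. -/
noncomputable def hilb {N : ℕ} (I : Ideal (MvPolynomial (Fin (N + 1)) ℂ)) (t : ℕ) : ℕ :=
  Module.finrank ℂ (Submodule.map (Ideal.Quotient.mkₐ ℂ I).toLinearMap
    (homogeneousSubmodule (Fin (N + 1)) ℂ t))

lemma hilbPoly_nat {N r : ℕ} (d : Fin r → ℕ) (t : ℕ) (hd : ∑ k, d k ≤ N + t) :
    hilbPoly N (fun k => (d k : ℂ)) t = (ciHilb N d t : ℤ) := by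
  rw [hilbPoly, ciHilb]
  push_cast
  refine Finset.sum_congr rfl (fun S _ => ?_)
  congr 1
  have h1 : ∑ k ∈ S, d k ≤ ∑ k, d k := Finset.sum_le_univ_sum_of_nonneg (fun _ => Nat.zero_le _)
  have h2 : (N : ℂ) + t - ∑ k ∈ S, (d k : ℂ) = ((N + t - ∑ k ∈ S, d k : ℕ) : ℂ) := by
    rw [Nat.cast_sub (by omega)]
    push_cast
    ring
  rw [h2, binom_nat]

lemma ciHilb_one {N r : ℕ} (d : Fin r → ℕ) (hd : ∀ k, 0 < d k) (hN : 0 < N) :
    ciHilb N d 1 = N + 1 - ((univ.filter (fun k => d k = 1)).card : ℤ) := by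
  classical
  set A := univ.filter (fun k => d k = 1) with hA
  have h1 : ciHilb N d 1 = ∑ S ∈ insert ∅ (A.image (fun k => ({k} : Finset (Fin r)))),
      (-1) ^ S.card * ((N + 1 - ∑ k ∈ S, d k).choose N : ℤ) := by
    rw [ciHilb]
    symm
    refine Finset.sum_subset (Finset.subset_univ _) (fun S _ hS => ?_)
    rw [Finset.mem_insert, not_or] at hS
    have h2 : 2 ≤ ∑ k ∈ S, d k := by
      obtain ⟨k, hk⟩ := Finset.nonempty_iff_ne_empty.2 hS.1
      rw [← Finset.add_sum_erase S d hk]
      rcases Finset.eq_empty_or_nonempty (S.erase k) with h | ⟨l, hl⟩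
      · have h3 : S = {k} := by
          rw [← Finset.insert_erase hk, h]
          rfl
        have h4 : d k ≠ 1 := by
          intro h5
          exact hS.2 (Finset.mem_image.2 ⟨k, Finset.mem_filter.2 ⟨Finset.mem_univ _, h5⟩, h3.symm⟩)
        have := hd k
        omega
      · have h5 : d l ≤ ∑ j ∈ S.erase k, d j := Finset.single_le_sum (fun _ _ => Nat.zero_le _) hl
        have := hd k
        have := hd l
        omega
    rw [Nat.choose_eq_zero_of_lt (by omega)]
    simp
  rw [h1, Finset.sum_insert, Finset.sum_image]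
  · have h3 : ∀ k ∈ A, (-1 : ℤ) ^ ({k} : Finset (Fin r)).card *
        ((N + 1 - ∑ j ∈ ({k} : Finset (Fin r)), d j).choose N : ℤ) = -1 := by
      intro k hk
      rw [Finset.card_singleton, Finset.sum_singleton, (Finset.mem_filter.1 hk).2]
      simp
    rw [Finset.sum_congr rfl h3]
    simp
    ring
  · intro k _ l _ h
    exact Finset.singleton_injective h
  · intro h
    obtain ⟨k, _, hk⟩ := Finset.mem_image.1 h
    exact Finset.singleton_ne_empty k hk

/-- the linear forms as a linear map -/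
noncomputable def linL (N : ℕ) : (Fin (N + 1) → ℂ) →ₗ[ℂ] MvPolynomial (Fin (N + 1)) ℂ where
  toFun := fun u => lin u
  map_add' := lin_add
  map_smul' := fun c u => by
    rw [lin_smul, RingHom.id_apply, MvPolynomial.smul_eq_C_mul]

lemma range_linL (N : ℕ) : LinearMap.range (linL N) = homogeneousSubmodule (Fin (N + 1)) ℂ 1 := by
  apply le_antisymm
  · rintro _ ⟨u, rfl⟩
    exact lin_homog u
  · rw [homogeneousSubmodule_one_eq_span_X, Submodule.span_le]
    rintro _ ⟨k, rfl⟩
    exact ⟨Pi.single k 1, lin_single k⟩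

/-- The forms of degree one. -/
theorem hilb_one {N : ℕ} (I : Ideal (MvPolynomial (Fin (N + 1)) ℂ)) :
    hilb I 1 + Module.finrank ℂ (linsub I) = N + 1 := by
  let φ : (Fin (N + 1) → ℂ) →ₗ[ℂ] MvPolynomial (Fin (N + 1)) ℂ ⧸ I :=
    (Ideal.Quotient.mkₐ ℂ I).toLinearMap ∘ₗ linL N
  have h1 : LinearMap.range φ = Submodule.map (Ideal.Quotient.mkₐ ℂ I).toLinearMap
      (homogeneousSubmodule (Fin (N + 1)) ℂ 1) := by
    rw [LinearMap.range_comp, range_linL]
  have h2 : LinearMap.ker φ = linsub I := by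
    ext u
    rw [LinearMap.mem_ker, mem_linsub]
    exact Ideal.Quotient.eq_zero_iff_mem
  have h3 := LinearMap.finrank_range_add_finrank_ker φ
  rw [h1, h2, Module.finrank_fintype_fun_eq_card, Fintype.card_fin] at h3
  exact h3

lemma card_le_omega {r : ℕ} (d : Fin r → ℕ) (hd : ∀ k, 0 < d k) :
    (univ.filter (fun k => d k ≠ 1)).card ≤ ArithmeticFunction.cardFactors (∏ k, d k) := by
  classical
  have h1 : ∀ s : Finset (Fin r), ArithmeticFunction.cardFactors (∏ k ∈ s, d k) =
      ∑ k ∈ s, ArithmeticFunction.cardFactors (d k) := by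
    intro s
    induction s using Finset.induction_on with
    | empty => simp
    | insert k s hk ih =>
      rw [Finset.prod_insert hk, Finset.sum_insert hk,
        ArithmeticFunction.cardFactors_mul (hd k).ne' (Finset.prod_ne_zero_iff.2
          (fun j _ => (hd j).ne')), ih]
  rw [h1, Finset.card_filter]
  refine Finset.sum_le_sum (fun k _ => ?_)
  split_ifs with h
  · have h2 : ArithmeticFunction.cardFactors (d k) ≠ 0 := by
      intro h3
      rw [ArithmeticFunction.cardFactors_eq_zero_iff_eq_zero_or_one] at h3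
      have := hd k
      omega
    omega
  · exact Nat.zero_le _

lemma two_pow_le {r : ℕ} (d : Fin r → ℕ) (hd : ∀ k, 0 < d k) :
    2 ^ (univ.filter (fun k => d k ≠ 1)).card ≤ ∏ k, d k := by
  classical
  rw [← Finset.prod_filter_mul_prod_filter_not univ (fun k => d k ≠ 1) d, ← Finset.prod_const]
  have h1 : ∏ k ∈ univ.filter (fun k => d k ≠ 1), 2 ≤ ∏ k ∈ univ.filter (fun k => d k ≠ 1), d k := by
    refine Finset.prod_le_prod (fun _ _ => by norm_num) (fun k hk => ?_)
    have h2 := (Finset.mem_filter.1 hk).2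
    have := hd k
    omega
  have h2 : 1 ≤ ∏ k ∈ univ.filter (fun k => ¬ d k ≠ 1), d k :=
    Nat.one_le_iff_ne_zero.2 (Finset.prod_ne_zero_iff.2 (fun k _ => (hd k).ne'))
  exact le_trans h1 (Nat.le_mul_of_pos_right _ h2)

end Pool.Agent.K4H24.Fano
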