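import Mathlib

/-!
# Sums of binomial polynomials with consecutive zeros
-/

set_option autoImplicit false

namespace Pool.Agent.K4H24.Fano

open Finset

/-- The binomial polynomial of degree `n` at a complex number. -/
noncomputable def binom (n : ℕ) (z : ℂ) : ℂ := (∏ j ∈ Finset.range n, (z - j)) / n.factorial

lemma binom_zero (z : ℂ) : binom 0 z = 1 := by simp [binom]

lemma binom_succ (n : ℕ) (z : ℂ) : binom (n + 1) z * (n + 1) = binom n z * (z - n) := by
  have h1 : ((n + 1 : ℕ) : ℂ) ≠ 0 := by exact_mod_cast Nat.succ_ne_zero n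
  have h2 : (n.factorial : ℂ) ≠ 0 := by exact_mod_cast Nat.factorial_ne_zero n
  rw [binom, binom, Finset.prod_range_succ, Nat.factorial_succ]
  push_cast at h1 ⊢
  field_simp

/-- Pascal's rule. -/
lemma binom_pascal (n : ℕ) (z : ℂ) : binom (n + 1) (z + 1) - binom (n + 1) z = binom n z := by
  have h1 : ((n : ℂ) + 1) ≠ 0 := by exact_mod_cast Nat.succ_ne_zero n
  have h2 : (n.factorial : ℂ) ≠ 0 := by exact_mod_cast Nat.factorial_ne_zero n
  have h3 : ∏ j ∈ Finset.range (n + 1), (z + 1 - (j : ℂ)) =
      (z + 1) * ∏ j ∈ Finset.range n, (z - (j : ℂ)) := by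
    rw [Finset.prod_range_succ', mul_comm]
    congr 1
    · simp
    · refine Finset.prod_congr rfl (fun j _ => ?_)
      push_cast
      ring
  rw [binom, binom, binom, h3, Finset.prod_range_succ, Nat.factorial_succ]
  push_cast
  field_simp
  ring

lemma binom_nat (n m : ℕ) : binom n (m : ℂ) = (m.choose n : ℂ) := by
  have h2 : (n.factorial : ℂ) ≠ 0 := by exact_mod_cast Nat.factorial_ne_zero n
  rw [binom, div_eq_iff h2]
  have h3 : (∏ j ∈ Finset.range n, ((m : ℂ) - j)) = (m.descFactorial n : ℂ) := by
    rw [Nat.descFactorial_eq_prod_range, Nat.cast_prod]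
    rcases le_or_gt n m with h | h
    · refine Finset.prod_congr rfl (fun j hj => ?_)
      rw [Finset.mem_range] at hj
      rw [Nat.cast_sub (by omega)]
    · rw [Finset.prod_eq_zero (Finset.mem_range.2 h) (by simp),
        Finset.prod_eq_zero (Finset.mem_range.2 h) (by simp)]
  rw [h3, Nat.descFactorial_eq_factorial_mul_choose]
  push_cast
  ring

/-- Reflection. -/
lemma binom_reflect (n : ℕ) (z : ℂ) : binom n (n - 1 - z) = (-1) ^ n * binom n z := by
  rw [binom, binom, ← mul_div_assoc]
  congr 1
  have h : ∏ j ∈ Finset.range n, ((n : ℂ) - 1 - z - j) =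
      ∏ j ∈ Finset.range n, ((-1) * (z - j)) := by
    rw [← Finset.prod_range_reflect]
    refine Finset.prod_congr rfl (fun j hj => ?_)
    rw [Finset.mem_range] at hj
    have : ((n - 1 - j : ℕ) : ℂ) = (n : ℂ) - 1 - j := by
      rw [Nat.sub_sub, Nat.cast_sub (by omega)]
      push_cast
      ring
    rw [this]
    ring
  rw [h, Finset.prod_mul_distrib, Finset.prod_const, Finset.card_range]

/-- The factorisation of a binomial polynomial. -/
lemma binom_add (m k : ℕ) (z : ℂ) :
    ∃ c : ℂ, c ≠ 0 ∧ binom (m + k) z * c = (∏ j ∈ Finset.range m, (z - j)) *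
      ∏ j ∈ Finset.range k, (z - (m + j : ℕ)) := by
  refine ⟨((m + k).factorial : ℂ), by exact_mod_cast Nat.factorial_ne_zero _, ?_⟩
  rw [binom, div_mul_cancel₀ _ (by exact_mod_cast Nat.factorial_ne_zero _),
    Finset.prod_range_add]

/-- A linear functional on polynomials which vanishes on monic polynomials of all degrees less than
`L` vanishes on all polynomials of degree less than `L`. -/
lemma functional_zero (Λ : Polynomial ℂ →ₗ[ℂ] ℂ) (p : ℕ → Polynomial ℂ) (L : ℕ)
    (hmon : ∀ k, (p k).Monic) (hdeg : ∀ k, (p k).natDegree = k) (h0 : ∀ k < L, Λ (p k) = 0) :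
    ∀ k ≤ L, ∀ q : Polynomial ℂ, q.degree < k → Λ q = 0 := by
  intro k
  induction k with
  | zero =>
    intro _ q hq
    have : q = 0 := by
      rw [← Polynomial.degree_eq_bot]
      exact Nat.WithBot.lt_zero_iff.1 hq
    rw [this, map_zero]
  | succ k ih =>
    intro hk q hq
    have h1 : (q - Polynomial.C (q.coeff k) * p k).degree < k := by
      rw [Polynomial.degree_lt_iff_coeff_zero]
      intro m hm
      rw [Polynomial.coeff_sub, Polynomial.coeff_C_mul]
      rcases Nat.lt_or_ge k m with h | h
      · rw [Polynomial.degree_lt_iff_coeff_zero] at hq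
        have hp : (p k).coeff m = 0 :=
          Polynomial.coeff_eq_zero_of_natDegree_lt (by rw [hdeg]; exact h)
        rw [hq m (by omega), hp]
        ring
      · have : m = k := le_antisymm h hm
        subst this
        have h2 : (p m).coeff m = 1 := by
          have := (hmon m).coeff_natDegree
          rwa [hdeg] at this
        rw [h2]
        ring
    have h2 := ih (by omega) _ h1
    rw [map_sub, ← Polynomial.smul_eq_C_mul, map_smul, h0 k (by omega), smul_zero, sub_zero] at h2
    exact h2

/-- The key lemma: if a combination of binomial polynomials with at most `L` nodes has `L` consecutive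
zeros, then only nodes which are zeros of all the binomial polynomials have a nonzero
coefficient. -/
theorem nodes_of_zeros (N L : ℕ) (hL : L ≤ N + 1) (W : Finset ℂ) (hW : W.card ≤ L) (w : ℂ → ℂ)
    (h : ∀ s < L, ∑ z ∈ W, w z * binom N (z + s) = 0) (z : ℂ) (hz : z ∈ W) (hw : w z ≠ 0) :
    ∃ j : ℕ, j + L < N + 1 ∧ z = j := by
  classical
  -- the differences
  have hd : ∀ k ≤ L, ∀ s, s + k < L + 0 ∨ s + k < L → ∑ z ∈ W, w z * binom (N - k) (z + s) = 0 := by
    intro k
    induction k with
    | zero =>
      intro _ s hs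
      rw [Nat.sub_zero]
      exact h s (by omega)
    | succ k ih =>
      intro hk s hs
      have hN : N - k = (N - (k + 1)) + 1 := by omega
      have h1 := ih (by omega) s (by omega)
      have h2 := ih (by omega) (s + 1) (by omega)
      have h3 : ∀ z : ℂ, binom (N - (k + 1)) (z + s) =
          binom (N - k) (z + (s + 1 : ℕ)) - binom (N - k) (z + s) := by
        intro z
        rw [hN, ← binom_pascal]
        push_cast
        rw [add_assoc]
      simp_rw [h3, mul_sub, Finset.sum_sub_distrib, h1, h2, sub_zero]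
  have hd0 : ∀ m, N < m + L → m ≤ N → ∑ z ∈ W, w z * binom m z = 0 := by
    intro m hm hmN
    have h1 := hd (N - m) (by omega) 0 (by omega)
    have h2 : N - (N - m) = m := by omega
    rw [h2] at h1
    simpa using h1
  set m₀ := N + 1 - L with hm₀
  let v : ℂ → ℂ := fun z => w z * ∏ j ∈ Finset.range m₀, (z - j)
  let Λ : Polynomial ℂ →ₗ[ℂ] ℂ := ∑ z ∈ W, (v z) • Polynomial.leval z
  have hΛ : ∀ q : Polynomial ℂ, Λ q = ∑ z ∈ W, v z * q.eval z := by
    intro q
    simp only [Λ, LinearMap.sum_apply, LinearMap.smul_apply, Polynomial.leval_apply, smul_eq_mul]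
  let p : ℕ → Polynomial ℂ := fun k =>
    ∏ j ∈ Finset.range k, (Polynomial.X - Polynomial.C ((m₀ + j : ℕ) : ℂ))
  have hmon : ∀ k, (p k).Monic := fun k =>
    Polynomial.monic_prod_of_monic _ _ (fun j _ => Polynomial.monic_X_sub_C _)
  have hdeg : ∀ k, (p k).natDegree = k := by
    intro k
    rw [Polynomial.natDegree_prod_of_monic _ _ (fun j _ => Polynomial.monic_X_sub_C _),
      Finset.sum_congr rfl (fun j _ => Polynomial.natDegree_X_sub_C _)]
    simp
  have h0 : ∀ k < L, Λ (p k) = 0 := by
    intro k hk
    rw [hΛ]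
    have h1 := hd0 (m₀ + k) (by omega) (by omega)
    have h2 : ∀ z : ℂ, binom (m₀ + k) z * ((m₀ + k).factorial : ℂ) =
        (∏ j ∈ Finset.range m₀, (z - j)) * (p k).eval z := by
      intro z
      rw [binom, div_mul_cancel₀ _ (by exact_mod_cast Nat.factorial_ne_zero _),
        Finset.prod_range_add]
      congr 1
      simp only [p]
      rw [Polynomial.eval_prod]
      simp
    have h3 : ∑ z ∈ W, v z * (p k).eval z = (∑ z ∈ W, w z * binom (m₀ + k) z) *
        ((m₀ + k).factorial : ℂ) := by
      rw [Finset.sum_mul]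
      refine Finset.sum_congr rfl (fun z _ => ?_)
      simp only [v]
      rw [mul_assoc, ← h2, mul_assoc]
    rw [h3, h1, zero_mul]
  have hall := functional_zero Λ p L hmon hdeg h0 L le_rfl
  -- the Lagrange polynomial
  have hvz : v z = 0 := by
    let q : Polynomial ℂ := ∏ y ∈ W.erase z, (Polynomial.X - Polynomial.C y)
    have hq : q.degree < L := by
      have h1 : q.natDegree = (W.erase z).card := by
        rw [Polynomial.natDegree_prod_of_monic _ _ (fun j _ => Polynomial.monic_X_sub_C _),
          Finset.sum_congr rfl (fun j _ => Polynomial.natDegree_X_sub_C _)]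
        simp
      have hq0 : q ≠ 0 :=
        (Polynomial.monic_prod_of_monic _ _ (fun j _ => Polynomial.monic_X_sub_C _)).ne_zero
      rw [Polynomial.degree_eq_natDegree hq0, h1, Finset.card_erase_of_mem hz]
      have : 0 < W.card := Finset.card_pos.2 ⟨z, hz⟩
      exact_mod_cast (by omega : W.card - 1 < L)
    have h1 := hall q hq
    rw [hΛ, Finset.sum_eq_single z] at h1
    · rcases mul_eq_zero.1 h1 with h2 | h2
      · exact h2
      · exfalso
        rw [Polynomial.eval_prod, Finset.prod_eq_zero_iff] at h2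
        obtain ⟨y, hy, hy'⟩ := h2
        rw [Polynomial.eval_sub, Polynomial.eval_X, Polynomial.eval_C, sub_eq_zero] at hy'
        exact Finset.ne_of_mem_erase hy hy'.symm
    · intro y hy hyz
      have : q.eval y = 0 := by
        rw [Polynomial.eval_prod]
        exact Finset.prod_eq_zero (Finset.mem_erase.2 ⟨hyz, hy⟩) (by simp)
      rw [this, mul_zero]
    · intro h; exact absurd hz h
  have h4 : ∏ j ∈ Finset.range m₀, (z - (j : ℂ)) = 0 := (mul_eq_zero.1 hvz).resolve_left hw
  rw [Finset.prod_eq_zero_iff] at h4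
  obtain ⟨j, hj, hj'⟩ := h4
  rw [Finset.mem_range] at hj
  exact ⟨j, by omega, by rw [← sub_eq_zero]; exact hj'⟩

end Pool.Agent.K4H24.Fano
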