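import Pool.Agent.K4H24.Fano.Num

/-!
# Integrality of the Chern roots from consecutive zeros of the Hilbert polynomial
-/

set_option autoImplicit false

namespace Pool.Agent.K4H24.Fano

open Finset Filter Topology

/-- The Hilbert polynomial of a smooth subvariety of codimension `r` of `ℙ^N` whose normal bundle has
the Chern roots `a_k h`, `h` the class of a hyperplane (theorem of Hirzebruch, Riemann and Roch). -/
noncomputable def hilbPoly (N : ℕ) {r : ℕ} (a : Fin r → ℂ) (t : ℂ) : ℂ :=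
  ∑ S : Finset (Fin r), (-1) ^ S.card * binom N (N + t - ∑ k ∈ S, a k)

section

variable {N r e c : ℕ} {k : ℤ} (a : Fin r → ℂ)

/-- the sets which are neither empty nor everything -/
def mid (r : ℕ) : Finset (Finset (Fin r)) := (univ.erase ∅).erase univ

lemma mem_mid {S : Finset (Fin r)} : S ∈ mid r ↔ S ≠ univ ∧ S ≠ ∅ := by
  simp [mid]

/-- the middle part of a sum over all subsets -/
lemma sum_split (hr : 0 < r) (f : Finset (Fin r) → ℂ) :
    ∑ S, f S = f ∅ + (f univ + ∑ S ∈ mid r, f S) := by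
  have hne : (univ : Finset (Fin r)) ≠ ∅ := by
    have : Nonempty (Fin r) := ⟨⟨0, hr⟩⟩
    exact Finset.univ_nonempty.ne_empty
  rw [mid, ← Finset.add_sum_erase univ f (Finset.mem_univ ∅),
    ← Finset.add_sum_erase (univ.erase ∅) f (Finset.mem_erase.2 ⟨hne, Finset.mem_univ _⟩)]

lemma card_mid (hr : 0 < r) : (mid r).card + 2 = 2 ^ r := by
  have hne : (univ : Finset (Fin r)) ≠ ∅ := by
    have : Nonempty (Fin r) := ⟨⟨0, hr⟩⟩
    exact Finset.univ_nonempty.ne_empty
  rw [mid, Finset.card_erase_of_mem (Finset.mem_erase.2 ⟨hne, Finset.mem_univ _⟩),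
    Finset.card_erase_of_mem (Finset.mem_univ _)]
  have : (univ : Finset (Finset (Fin r))).card = 2 ^ r := by simp
  rw [this]
  have : 2 ^ 1 ≤ 2 ^ r := Nat.pow_le_pow_right (by norm_num) hr
  omega

/-- the middle part of the Hilbert polynomial -/
noncomputable def midPoly (N : ℕ) {r : ℕ} (a : Fin r → ℂ) (t : ℂ) : ℂ :=
  ∑ S ∈ mid r, (-1) ^ S.card * binom N (N + t - ∑ k ∈ S, a k)

lemma hilb_eq (hr : 0 < r) (hsum : ∑ j, a j = c) (t : ℂ) :
    hilbPoly N a t = binom N (N + t) + ((-1) ^ r * binom N (N + t - c) + midPoly N a t) := by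
  rw [hilbPoly, sum_split hr, midPoly, hsum]
  simp

/-- The middle part of the Hilbert polynomial vanishes for `k - e < t < e`. -/
lemma mid_zero (hr : 0 < r) (hsum : ∑ j, a j = c) (hk : (c : ℤ) = N + 1 + k) (hec : e ≤ c)
    (hval : ∀ t : ℤ, k - e < t → t < e → hilbPoly N a t =
      (if 0 ≤ t then (((N + t).toNat.choose N : ℕ) : ℂ) else 0) +
      (-1) ^ (N + r) * (if 0 ≤ k - t then (((N + (k - t)).toNat.choose N : ℕ) : ℂ) else 0))
    (t : ℤ) (ht : k - e < t) (ht' : t < e) : midPoly N a t = 0 := by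
  have h1 := hval t ht ht'
  rw [hilb_eq a hr hsum] at h1
  have h3 : binom N ((N : ℂ) + t) =
      (if 0 ≤ t then (((N + t).toNat.choose N : ℕ) : ℂ) else 0) := by
    have h4 : (N : ℂ) + t = ((N + t).toNat : ℂ) := by
      have h5 : (((N + t).toNat : ℤ)) = N + t := Int.toNat_of_nonneg (by omega)
      have h6 : (((N + t).toNat : ℤ) : ℂ) = ((N + t : ℤ) : ℂ) := by rw [h5]
      push_cast at h6
      rw [← h6]
    rw [h4, binom_nat]
    split_ifs with h
    · rfl
    · rw [Nat.choose_eq_zero_of_lt (by omega)]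
      simp
  have h3' : binom N ((N : ℂ) + t - c) = (-1) ^ N *
      (if 0 ≤ k - t then (((N + (k - t)).toNat.choose N : ℕ) : ℂ) else 0) := by
    have hk' : (c : ℂ) = N + 1 + k := by exact_mod_cast hk
    have h4 : (N : ℂ) + t - c = N - 1 - ((N + (k - t)).toNat : ℂ) := by
      have h5 : (((N + (k - t)).toNat : ℤ)) = N + (k - t) := Int.toNat_of_nonneg (by omega)
      have h6 : (((N + (k - t)).toNat : ℤ) : ℂ) = ((N + (k - t) : ℤ) : ℂ) := by rw [h5]
      push_cast at h6
      rw [h6, hk']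
      ring
    rw [h4, binom_reflect, binom_nat]
    split_ifs with h
    · rfl
    · rw [Nat.choose_eq_zero_of_lt (by omega)]
      simp
  rw [h3, h3', pow_add] at h1
  linear_combination h1

/-- Functions which vanish at the integers `m ≥ e` have vanishing alternating sums. -/
lemma alt_zero (hr : 0 < r) (hsum : ∑ j, a j = c) (hk : (c : ℤ) = N + 1 + k)
    (he : 0 < e) (hec : 2 * e ≤ c + 1) (h2 : (2 : ℤ) ^ r ≤ 2 * e + 1 - k)
    (hval : ∀ t : ℤ, k - e < t → t < e → hilbPoly N a t =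
      (if 0 ≤ t then (((N + t).toNat.choose N : ℕ) : ℂ) else 0) +
      (-1) ^ (N + r) * (if 0 ≤ k - t then (((N + (k - t)).toNat.choose N : ℕ) : ℂ) else 0))
    (f : ℂ → ℂ) (hf : ∀ m : ℕ, e ≤ m → f m = 0) :
    ∑ S ∈ mid r, (-1) ^ S.card * f (∑ j ∈ S, a j) = 0 := by
  classical
  have hk' : (c : ℂ) = N + 1 + k := by exact_mod_cast hk
  let nd : Finset (Fin r) → ℂ := fun S => c - e - ∑ k ∈ S, a k
  let W : Finset ℂ := (mid r).image nd
  let w : ℂ → ℂ := fun z => ∑ S ∈ mid r with nd S = z, (-1 : ℂ) ^ S.card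
  obtain ⟨L, hL⟩ : ∃ L : ℕ, (L : ℤ) = 2 * e - 1 - k := by
    refine ⟨(2 * e - 1 - k).toNat, Int.toNat_of_nonneg ?_⟩
    have : (2 : ℤ) ^ 1 ≤ 2 ^ r := pow_le_pow_right₀ (by norm_num) hr
    omega
  have hfib : ∀ g : ℂ → ℂ, ∑ S ∈ mid r, (-1 : ℂ) ^ S.card * g (nd S) = ∑ z ∈ W, w z * g z := by
    intro g
    rw [← Finset.sum_fiberwise_of_maps_to (s := mid r) (t := W) (g := nd)
      (fun S hS => Finset.mem_image_of_mem _ hS)]
    refine Finset.sum_congr rfl (fun z _ => ?_)
    simp only [w]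
    rw [Finset.sum_mul]
    refine Finset.sum_congr rfl (fun S hS => ?_)
    rw [(Finset.mem_filter.1 hS).2]
  have hW : W.card ≤ L := by
    have h3 := Finset.card_image_le (s := mid r) (f := nd)
    have h4 := card_mid hr
    show ((mid r).image nd).card ≤ _
    have h5 : (((mid r).card + 2 : ℕ) : ℤ) = 2 ^ r := by rw [h4]; push_cast; rfl
    push_cast at h5
    omega
  have hz : ∀ s < L, ∑ z ∈ W, w z * binom N (z + s) = 0 := by
    intro s hs
    rw [← hfib (fun z => binom N (z + s))]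
    have h3 := mid_zero a hr hsum hk (by omega) hval (k - e + 1 + s) (by omega) (by omega)
    rw [midPoly] at h3
    rw [← h3]
    refine Finset.sum_congr rfl (fun S _ => ?_)
    congr 2
    simp only [nd]
    push_cast
    linear_combination hk'
  have h5 : ∑ S ∈ mid r, (-1 : ℂ) ^ S.card * f (∑ j ∈ S, a j) =
      ∑ z ∈ W, w z * f (c - e - z) := by
    rw [← hfib (fun z => f (c - e - z))]
    refine Finset.sum_congr rfl (fun S _ => ?_)
    congr 2
    simp only [nd]
    ring
  rw [h5]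
  refine Finset.sum_eq_zero (fun z hzW => ?_)
  by_cases hw : w z = 0
  · rw [hw, zero_mul]
  · obtain ⟨j, hj, hj'⟩ := nodes_of_zeros N L (by omega) W hW w hz z hzW hw
    have h6 : (c : ℂ) - e - z = ((c - e - j : ℕ) : ℂ) := by
      rw [Nat.cast_sub (by omega), Nat.cast_sub (by omega), hj']
    rw [h6, hf _ (by omega), mul_zero]

/-- the product of the `1 - exp (a_k s)` -/
lemma prod_eq_sum (s : ℂ) : ∏ k, (1 - Complex.exp (a k * s)) =
    ∑ S : Finset (Fin r), (-1) ^ S.card * Complex.exp ((∑ k ∈ S, a k) * s) := by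
  have h1 : ∀ k, 1 - Complex.exp (a k * s) = 1 + -Complex.exp (a k * s) := fun k => by ring
  simp_rw [h1]
  rw [Finset.prod_one_add, Finset.powerset_univ]
  refine Finset.sum_congr rfl (fun S _ => ?_)
  rw [Finset.prod_neg, ← Complex.exp_sum, Finset.sum_mul]

end

end Pool.Agent.K4H24.Fano
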